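import Mathlib

set_option autoImplicit false

/-!
# A homogeneous cone that is not a rank-one generated hyperbolicity cone

The cone `K = {(x, a, b, c, y) : a, b, c ≥ 0, x ^ 2 ≤ a b, y ^ 2 ≤ a c}` in `ℝ ^ 5` (the dual of the
Vinberg cone) is homogeneous. If `K` is the hyperbolicity cone of `p` along `e`, then both
`a b - x ^ 2` and `a c - y ^ 2` divide `p`, and each factor contributes one nonzero eigenvalue of the
extreme ray of the `a`-axis, so that it has rank at least `2`.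
-/

namespace Pool.Agent.Results.MP_3ab8ef_ag.NotROG

open MvPolynomial Finset

/-! ### Definitions -/

/-- The univariate polynomial `t ↦ p (t e - x)`. -/
noncomputable def charPoly {n : ℕ} (p : MvPolynomial (Fin n) ℝ) (e x : Fin n → ℝ) :
    Polynomial ℝ :=
  MvPolynomial.aeval (fun i => Polynomial.X * Polynomial.C (e i) - Polynomial.C (x i)) p

/-- `p` is hyperbolic along `e`: `p e > 0`, and for every `x` all complex roots of
`t ↦ p (x - t e)` are real. -/
def Hyperbolic {n : ℕ} (p : MvPolynomial (Fin n) ℝ) (e : Fin n → ℝ) : Prop :=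
  0 < eval e p ∧ ∀ (x : Fin n → ℝ) (z : ℂ),
    MvPolynomial.aeval (fun i => ((x i : ℂ) - z * (e i : ℂ))) p = 0 → z.im = 0

/-- The hyperbolicity cone: all roots of `t ↦ p (t e - x)` are nonnegative. -/
def hypCone {n : ℕ} (p : MvPolynomial (Fin n) ℝ) (e : Fin n → ℝ) : Set (Fin n → ℝ) :=
  {x | ∀ t : ℝ, (charPoly p e x).IsRoot t → 0 ≤ t}

/-- The rank of `x` with respect to `p`, `e`: the number of nonzero roots of `t ↦ p (t e - x)`,
counted with multiplicity. -/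
noncomputable def rank {n : ℕ} (p : MvPolynomial (Fin n) ℝ) (e x : Fin n → ℝ) : ℕ := by
  classical exact Multiset.card ((charPoly p e x).roots.filter (fun t => t ≠ 0))

/-- Convex cones (containing `0`). -/
def IsConvexCone {n : ℕ} (K : Set (Fin n → ℝ)) : Prop :=
  (0 : Fin n → ℝ) ∈ K ∧ (∀ x ∈ K, ∀ y ∈ K, x + y ∈ K) ∧ ∀ t : ℝ, 0 ≤ t → ∀ x ∈ K, t • x ∈ K

/-- Homogeneous cones: pointed full-dimensional closed convex cones such that the group of the
linear automorphisms of `K` acts transitively on the interior of `K`. -/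
def IsHomogeneousCone {n : ℕ} (K : Set (Fin n → ℝ)) : Prop :=
  IsConvexCone K ∧ IsClosed K ∧ (∀ x ∈ K, -x ∈ K → x = 0) ∧ (interior K).Nonempty ∧
    ∀ x ∈ interior K, ∀ y ∈ interior K,
      ∃ A : (Fin n → ℝ) ≃ₗ[ℝ] (Fin n → ℝ), A '' K = K ∧ A x = y

/-- `F` is a face of `K`. -/
def IsFace {n : ℕ} (K F : Set (Fin n → ℝ)) : Prop :=
  F ⊆ K ∧ IsConvexCone F ∧ ∀ x ∈ K, ∀ y ∈ K, x + y ∈ F → x ∈ F ∧ y ∈ F

/-- `R` is an extreme ray of `K`: a face which consists of the nonnegative multiples of a nonzero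
vector. -/
def IsExtremeRay {n : ℕ} (K R : Set (Fin n → ℝ)) : Prop :=
  IsFace K R ∧ ∃ x : Fin n → ℝ, x ≠ 0 ∧ R = {y | ∃ t : ℝ, 0 ≤ t ∧ y = t • x}

/-! ### Evaluation of the characteristic polynomial -/

lemma eval_charPoly {n : ℕ} (p : MvPolynomial (Fin n) ℝ) (e x : Fin n → ℝ) (t : ℝ) :
    (charPoly p e x).eval t = eval (t • e - x) p := by
  unfold charPoly
  have h : ∀ q : Polynomial ℝ, q.eval t = Polynomial.aeval t q := fun q => by
    rw [Polynomial.coe_aeval_eq_eval]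
  rw [h, ← AlgHom.comp_apply, comp_aeval, ← aeval_eq_eval]
  congr 2
  funext i
  rw [← h]
  simp only [Polynomial.eval_sub, Polynomial.eval_mul, Polynomial.eval_X, Polynomial.eval_C,
    Pi.sub_apply, Pi.smul_apply, smul_eq_mul]

lemma charPoly_mul {n : ℕ} (p q : MvPolynomial (Fin n) ℝ) (e x : Fin n → ℝ) :
    charPoly (p * q) e x = charPoly p e x * charPoly q e x := by
  unfold charPoly
  rw [map_mul]

/-! ### The cone -/

/-- The dual of the Vinberg cone; the coordinates are `(x, a, b, c, y)`. -/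
def V : Set (Fin 5 → ℝ) :=
  {z | 0 ≤ z 1 ∧ 0 ≤ z 2 ∧ 0 ≤ z 3 ∧ z 0 ^ 2 ≤ z 1 * z 2 ∧ z 4 ^ 2 ≤ z 1 * z 3}

/-- The open cone. -/
def U : Set (Fin 5 → ℝ) :=
  {z | 0 < z 1 ∧ 0 < z 2 ∧ 0 < z 3 ∧ z 0 ^ 2 < z 1 * z 2 ∧ z 4 ^ 2 < z 1 * z 3}

/-- The base point. -/
def w : Fin 5 → ℝ := ![0, 1, 1, 1, 0]

lemma cross {a b x a' b' x' : ℝ} (ha : 0 ≤ a) (hb : 0 ≤ b) (hx : x ^ 2 ≤ a * b) (ha' : 0 ≤ a')
    (hb' : 0 ≤ b') (hx' : x' ^ 2 ≤ a' * b') : 2 * (x * x') ≤ a * b' + b * a' := by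
  have h1 : (x * x') ^ 2 ≤ (a * b') * (b * a') := by
    calc (x * x') ^ 2 = x ^ 2 * x' ^ 2 := by ring
      _ ≤ (a * b) * (a' * b') := mul_le_mul hx hx' (sq_nonneg _) (mul_nonneg ha hb)
      _ = (a * b') * (b * a') := by ring
  have h2 : (2 * (x * x')) ^ 2 ≤ (a * b' + b * a') ^ 2 := by
    nlinarith [sq_nonneg (a * b' - b * a')]
  exact le_of_sq_le_sq h2 (by positivity)


lemma convexCone_V : IsConvexCone V := by
  refine ⟨by simp [V], ?_, ?_⟩
  · rintro z ⟨h1, h2, h3, h4, h5⟩ z' ⟨h1', h2', h3', h4', h5'⟩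
    have c1 := cross h1 h2 h4 h1' h2' h4'
    have c2 := cross h1 h3 h5 h1' h3' h5'
    refine ⟨add_nonneg h1 h1', add_nonneg h2 h2', add_nonneg h3 h3', ?_, ?_⟩
    · show (z 0 + z' 0) ^ 2 ≤ (z 1 + z' 1) * (z 2 + z' 2)
      nlinarith
    · show (z 4 + z' 4) ^ 2 ≤ (z 1 + z' 1) * (z 3 + z' 3)
      nlinarith
  · rintro t ht z ⟨h1, h2, h3, h4, h5⟩
    refine ⟨mul_nonneg ht h1, mul_nonneg ht h2, mul_nonneg ht h3, ?_, ?_⟩
    · show (t * z 0) ^ 2 ≤ (t * z 1) * (t * z 2)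
      nlinarith [mul_le_mul_of_nonneg_left h4 (sq_nonneg t)]
    · show (t * z 4) ^ 2 ≤ (t * z 1) * (t * z 3)
      nlinarith [mul_le_mul_of_nonneg_left h5 (sq_nonneg t)]

lemma closed_V : IsClosed V := by
  have h : V = {z : Fin 5 → ℝ | 0 ≤ z 1} ∩ ({z | 0 ≤ z 2} ∩ ({z | 0 ≤ z 3} ∩
      ({z | z 0 ^ 2 ≤ z 1 * z 2} ∩ {z | z 4 ^ 2 ≤ z 1 * z 3}))) := by
    ext z; simp [V]
  rw [h]
  refine IsClosed.inter (isClosed_le continuous_const (continuous_apply 1)) ?_
  refine IsClosed.inter (isClosed_le continuous_const (continuous_apply 2)) ?_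
  refine IsClosed.inter (isClosed_le continuous_const (continuous_apply 3)) ?_
  refine IsClosed.inter (isClosed_le (by fun_prop) (by fun_prop)) ?_
  exact isClosed_le (by fun_prop) (by fun_prop)

lemma open_U : IsOpen U := by
  have h : U = {z : Fin 5 → ℝ | 0 < z 1} ∩ ({z | 0 < z 2} ∩ ({z | 0 < z 3} ∩
      ({z | z 0 ^ 2 < z 1 * z 2} ∩ {z | z 4 ^ 2 < z 1 * z 3}))) := by
    ext z; simp [U]
  rw [h]
  refine IsOpen.inter (isOpen_lt continuous_const (continuous_apply 1)) ?_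
  refine IsOpen.inter (isOpen_lt continuous_const (continuous_apply 2)) ?_
  refine IsOpen.inter (isOpen_lt continuous_const (continuous_apply 3)) ?_
  refine IsOpen.inter (isOpen_lt (by fun_prop) (by fun_prop)) ?_
  exact isOpen_lt (by fun_prop) (by fun_prop)

lemma U_subset_V : U ⊆ V :=
  fun _ h => ⟨h.1.le, h.2.1.le, h.2.2.1.le, h.2.2.2.1.le, h.2.2.2.2.le⟩

/-- The sum of a point of `V` and of a point of `U` is in `U`. -/
lemma add_mem_U {z z' : Fin 5 → ℝ} (h : z ∈ V) (h' : z' ∈ U) : z + z' ∈ U := by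
  obtain ⟨h1, h2, h3, h4, h5⟩ := h
  have hV := U_subset_V h'
  obtain ⟨h1', h2', h3', h4', h5'⟩ := h'
  have c1 := cross h1 h2 h4 hV.1 hV.2.1 hV.2.2.2.1
  have c2 := cross h1 h3 h5 hV.1 hV.2.2.1 hV.2.2.2.2
  refine ⟨add_pos_of_nonneg_of_pos h1 h1', add_pos_of_nonneg_of_pos h2 h2',
    add_pos_of_nonneg_of_pos h3 h3', ?_, ?_⟩
  · show (z 0 + z' 0) ^ 2 < (z 1 + z' 1) * (z 2 + z' 2)
    nlinarith
  · show (z 4 + z' 4) ^ 2 < (z 1 + z' 1) * (z 3 + z' 3)
    nlinarith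

lemma smul_mem_U {z : Fin 5 → ℝ} {t : ℝ} (ht : 0 < t) (h : z ∈ U) : t • z ∈ U := by
  obtain ⟨h1, h2, h3, h4, h5⟩ := h
  have ht2 : 0 < t ^ 2 := by positivity
  refine ⟨mul_pos ht h1, mul_pos ht h2, mul_pos ht h3, ?_, ?_⟩
  · show (t * z 0) ^ 2 < (t * z 1) * (t * z 2)
    nlinarith [mul_lt_mul_of_pos_left h4 ht2]
  · show (t * z 4) ^ 2 < (t * z 1) * (t * z 3)
    nlinarith [mul_lt_mul_of_pos_left h5 ht2]

lemma w_mem_U : w ∈ U := by
  refine ⟨?_, ?_, ?_, ?_, ?_⟩ <;> simp [w]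

lemma interior_V : interior V = U := by
  apply Set.Subset.antisymm
  · intro z hz
    -- `z - ε w` is in `V` for some positive `ε`
    have hcont : Filter.Tendsto (fun ε : ℝ => z - ε • w) (nhds 0) (nhds z) := by
      have : Continuous (fun ε : ℝ => z - ε • w) := by fun_prop
      have h := this.tendsto 0
      simpa using h
    have h1 : ∀ᶠ ε : ℝ in nhds 0, z - ε • w ∈ V :=
      hcont.eventually (mem_interior_iff_mem_nhds.1 hz)
    have h2 : ∀ᶠ ε : ℝ in nhdsWithin 0 (Set.Ioi 0), z - ε • w ∈ V :=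
      nhdsWithin_le_nhds h1
    obtain ⟨ε, hε, hε'⟩ := (h2.and self_mem_nhdsWithin).exists
    have h3 := add_mem_U hε (smul_mem_U hε' w_mem_U)
    simpa using h3
  · exact interior_maximal U_subset_V open_U

/-! ### Automorphisms -/

/-- The linear maps which act simply transitively on the interior. -/
def G (α β γ u v : ℝ) : (Fin 5 → ℝ) →ₗ[ℝ] (Fin 5 → ℝ) where
  toFun z := ![α * β * (z 0 + u * z 1), α ^ 2 * z 1, β ^ 2 * (z 2 + 2 * u * z 0 + u ^ 2 * z 1),
    γ ^ 2 * (z 3 + 2 * v * z 4 + v ^ 2 * z 1), α * γ * (z 4 + v * z 1)]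
  map_add' x y := by
    funext i; fin_cases i <;> simp <;> ring
  map_smul' t x := by
    funext i; fin_cases i <;> simp <;> ring

lemma G_mem {α β γ : ℝ} (u v : ℝ) {z : Fin 5 → ℝ} (hz : z ∈ V) : G α β γ u v z ∈ V := by
  obtain ⟨h1, h2, h3, h4, h5⟩ := hz
  have c1 : 0 ≤ z 2 + 2 * u * z 0 + u ^ 2 * z 1 := by
    rcases h1.lt_or_eq with h | h
    · have : 0 ≤ z 1 * (z 2 + 2 * u * z 0 + u ^ 2 * z 1) := by nlinarith [sq_nonneg (z 0 + u * z 1)]
      exact nonneg_of_mul_nonneg_right this h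
    · have h0 : z 0 = 0 := by
        rw [← h, zero_mul] at h4
        exact pow_eq_zero_iff (two_ne_zero) |>.1 (le_antisymm h4 (sq_nonneg _))
      rw [h0, ← h]; simpa using h2
  have c2 : 0 ≤ z 3 + 2 * v * z 4 + v ^ 2 * z 1 := by
    rcases h1.lt_or_eq with h | h
    · have : 0 ≤ z 1 * (z 3 + 2 * v * z 4 + v ^ 2 * z 1) := by nlinarith [sq_nonneg (z 4 + v * z 1)]
      exact nonneg_of_mul_nonneg_right this h
    · have h0 : z 4 = 0 := by
        rw [← h, zero_mul] at h5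
        exact pow_eq_zero_iff (two_ne_zero) |>.1 (le_antisymm h5 (sq_nonneg _))
      rw [h0, ← h]; simpa using h3
  refine ⟨?_, ?_, ?_, ?_, ?_⟩
  · show 0 ≤ α ^ 2 * z 1
    positivity
  · show 0 ≤ β ^ 2 * (z 2 + 2 * u * z 0 + u ^ 2 * z 1)
    positivity
  · show 0 ≤ γ ^ 2 * (z 3 + 2 * v * z 4 + v ^ 2 * z 1)
    positivity
  · show (α * β * (z 0 + u * z 1)) ^ 2 ≤ (α ^ 2 * z 1) * (β ^ 2 * (z 2 + 2 * u * z 0 + u ^ 2 * z 1))
    have : 0 ≤ (α * β) ^ 2 * (z 1 * z 2 - z 0 ^ 2) := mul_nonneg (sq_nonneg _) (by linarith)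
    nlinarith
  · show (α * γ * (z 4 + v * z 1)) ^ 2 ≤ (α ^ 2 * z 1) * (γ ^ 2 * (z 3 + 2 * v * z 4 + v ^ 2 * z 1))
    have : 0 ≤ (α * γ) ^ 2 * (z 1 * z 3 - z 4 ^ 2) := mul_nonneg (sq_nonneg _) (by linarith)
    nlinarith

lemma G0 (α β γ u v : ℝ) (z : Fin 5 → ℝ) : G α β γ u v z 0 = α * β * (z 0 + u * z 1) := rfl
lemma G1 (α β γ u v : ℝ) (z : Fin 5 → ℝ) : G α β γ u v z 1 = α ^ 2 * z 1 := rfl
lemma G2 (α β γ u v : ℝ) (z : Fin 5 → ℝ) :
    G α β γ u v z 2 = β ^ 2 * (z 2 + 2 * u * z 0 + u ^ 2 * z 1) := rfl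
lemma G3 (α β γ u v : ℝ) (z : Fin 5 → ℝ) :
    G α β γ u v z 3 = γ ^ 2 * (z 3 + 2 * v * z 4 + v ^ 2 * z 1) := rfl
lemma G4 (α β γ u v : ℝ) (z : Fin 5 → ℝ) : G α β γ u v z 4 = α * γ * (z 4 + v * z 1) := rfl

lemma G_comp {α β γ : ℝ} (hα : α ≠ 0) (hβ : β ≠ 0) (hγ : γ ≠ 0) (u v : ℝ) :
    (G α β γ u v) ∘ₗ (G α⁻¹ β⁻¹ γ⁻¹ (-(u * β / α)) (-(v * γ / α))) = LinearMap.id := by
  refine LinearMap.ext fun z => funext fun i => ?_
  rw [LinearMap.comp_apply, LinearMap.id_apply]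
  fin_cases i
  · show G α β γ u v _ 0 = z 0
    rw [G0, G0, G1]; field_simp; ring
  · show G α β γ u v _ 1 = z 1
    rw [G1, G1]; field_simp
  · show G α β γ u v _ 2 = z 2
    rw [G2, G2, G0, G1]; field_simp; ring
  · show G α β γ u v _ 3 = z 3
    rw [G3, G3, G4, G1]; field_simp; ring
  · show G α β γ u v _ 4 = z 4
    rw [G4, G4, G1]; field_simp; ring

lemma G_comp' {α β γ : ℝ} (hα : α ≠ 0) (hβ : β ≠ 0) (hγ : γ ≠ 0) (u v : ℝ) :
    (G α⁻¹ β⁻¹ γ⁻¹ (-(u * β / α)) (-(v * γ / α))) ∘ₗ (G α β γ u v) = LinearMap.id := by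
  refine LinearMap.ext fun z => funext fun i => ?_
  rw [LinearMap.comp_apply, LinearMap.id_apply]
  fin_cases i
  · show G _ _ _ _ _ (G α β γ u v z) 0 = z 0
    rw [G0, G0, G1]; field_simp; ring
  · show G _ _ _ _ _ (G α β γ u v z) 1 = z 1
    rw [G1, G1]; field_simp
  · show G _ _ _ _ _ (G α β γ u v z) 2 = z 2
    rw [G2, G2, G0, G1]; field_simp; ring
  · show G _ _ _ _ _ (G α β γ u v z) 3 = z 3
    rw [G3, G3, G4, G1]; field_simp; ring
  · show G _ _ _ _ _ (G α β γ u v z) 4 = z 4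
    rw [G4, G4, G1]; field_simp; ring

/-- For every interior point there is an automorphism which maps `w` to it. -/
lemma exists_aut {z : Fin 5 → ℝ} (hz : z ∈ U) :
    ∃ A : (Fin 5 → ℝ) ≃ₗ[ℝ] (Fin 5 → ℝ), A '' V = V ∧ A w = z := by
  obtain ⟨h1, h2, h3, h4, h5⟩ := hz
  have hb : 0 < z 2 - z 0 ^ 2 / z 1 := by
    rw [sub_pos, div_lt_iff₀ h1]; linarith
  have hc : 0 < z 3 - z 4 ^ 2 / z 1 := by
    rw [sub_pos, div_lt_iff₀ h1]; linarith
  set α := Real.sqrt (z 1) with hαdef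
  set β := Real.sqrt (z 2 - z 0 ^ 2 / z 1) with hβdef
  set γ := Real.sqrt (z 3 - z 4 ^ 2 / z 1) with hγdef
  have hα : 0 < α := Real.sqrt_pos.2 h1
  have hβ : 0 < β := Real.sqrt_pos.2 hb
  have hγ : 0 < γ := Real.sqrt_pos.2 hc
  have sα : α ^ 2 = z 1 := Real.sq_sqrt h1.le
  have sβ : β ^ 2 = z 2 - z 0 ^ 2 / z 1 := Real.sq_sqrt hb.le
  have sγ : γ ^ 2 = z 3 - z 4 ^ 2 / z 1 := Real.sq_sqrt hc.le
  let A : (Fin 5 → ℝ) ≃ₗ[ℝ] (Fin 5 → ℝ) :=
    LinearEquiv.ofLinearMap (G α β γ (z 0 / (α * β)) (z 4 / (α * γ))) _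
      (G_comp hα.ne' hβ.ne' hγ.ne' _ _) (G_comp' hα.ne' hβ.ne' hγ.ne' _ _)
  refine ⟨A, ?_, ?_⟩
  · apply Set.Subset.antisymm
    · rintro _ ⟨x, hx, rfl⟩
      exact G_mem _ _ hx
    · intro x hx
      refine ⟨A.symm x, ?_, A.apply_symm_apply x⟩
      exact G_mem _ _ hx
  · funext i
    have hne : z 1 ≠ 0 := h1.ne'
    fin_cases i
    · show α * β * (w 0 + z 0 / (α * β) * w 1) = z 0
      simp [w]
      field_simp
    · show α ^ 2 * w 1 = z 1
      simp [w, sα]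
    · show β ^ 2 * (w 2 + 2 * (z 0 / (α * β)) * w 0 + (z 0 / (α * β)) ^ 2 * w 1) = z 2
      have : β ^ 2 * (w 2 + 2 * (z 0 / (α * β)) * w 0 + (z 0 / (α * β)) ^ 2 * w 1) =
          β ^ 2 + z 0 ^ 2 / α ^ 2 := by
        simp [w]
        field_simp
      rw [this, sα, sβ]; ring
    · show γ ^ 2 * (w 3 + 2 * (z 4 / (α * γ)) * w 4 + (z 4 / (α * γ)) ^ 2 * w 1) = z 3
      have : γ ^ 2 * (w 3 + 2 * (z 4 / (α * γ)) * w 4 + (z 4 / (α * γ)) ^ 2 * w 1) =
          γ ^ 2 + z 4 ^ 2 / α ^ 2 := by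
        simp [w]
        field_simp
      rw [this, sα, sγ]; ring
    · show α * γ * (w 4 + z 4 / (α * γ) * w 1) = z 4
      simp [w]
      field_simp

lemma homogeneous_V : IsHomogeneousCone V := by
  refine ⟨convexCone_V, closed_V, ?_, ⟨w, by rw [interior_V]; exact w_mem_U⟩, ?_⟩
  · rintro z ⟨h1, h2, h3, h4, h5⟩ ⟨h1', h2', h3', h4', h5'⟩
    have e1 : z 1 = 0 := le_antisymm (by simpa using h1') h1
    have e2 : z 2 = 0 := le_antisymm (by simpa using h2') h2
    have e3 : z 3 = 0 := le_antisymm (by simpa using h3') h3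
    have e0 : z 0 = 0 := by
      rw [e1, zero_mul] at h4
      exact pow_eq_zero_iff (two_ne_zero) |>.1 (le_antisymm h4 (sq_nonneg _))
    have e4 : z 4 = 0 := by
      rw [e1, zero_mul] at h5
      exact pow_eq_zero_iff (two_ne_zero) |>.1 (le_antisymm h5 (sq_nonneg _))
    funext i
    fin_cases i
    · exact e0
    · exact e1
    · exact e2
    · exact e3
    · exact e4
  · intro x hx y hy
    rw [interior_V] at hx hy
    obtain ⟨A, hA, hA'⟩ := exists_aut hx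
    obtain ⟨B, hB, hB'⟩ := exists_aut hy
    refine ⟨A.symm.trans B, ?_, ?_⟩
    · have h1 : A.symm '' V = V := by
        conv_lhs => rw [← hA]
        rw [← Set.image_comp]
        simp
      have h2 : (A.symm.trans B) '' V = B '' (A.symm '' V) := by
        rw [← Set.image_comp]
        rfl
      rw [h2, h1, hB]
    · rw [LinearEquiv.trans_apply, ← hA', A.symm_apply_apply, hB']

/-! ### The extreme ray -/

/-- The extreme ray of the `a`-axis. -/
def ray : Set (Fin 5 → ℝ) := {y | ∃ t : ℝ, 0 ≤ t ∧ y = t • ![0, 1, 0, 0, 0]}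

lemma extreme_ray : IsExtremeRay V ray := by
  refine ⟨⟨?_, ⟨⟨0, le_rfl, by simp⟩, ?_, ?_⟩, ?_⟩, ![0, 1, 0, 0, 0], ?_, rfl⟩
  · rintro _ ⟨t, ht, rfl⟩
    simp [V, ht]
  · rintro _ ⟨t, ht, rfl⟩ _ ⟨s, hs, rfl⟩
    exact ⟨t + s, add_nonneg ht hs, by rw [add_smul]⟩
  · rintro s hs _ ⟨t, ht, rfl⟩
    exact ⟨s * t, mul_nonneg hs ht, by rw [mul_smul]⟩
  · have key : ∀ x ∈ V, ∀ y ∈ V, x + y ∈ ray → x ∈ ray := by
      rintro x ⟨h1, h2, h3, h4, h5⟩ y ⟨h1', h2', h3', h4', h5'⟩ ⟨t, ht, hxy⟩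
      have k2 : x 2 + y 2 = 0 := by
        have := congrFun hxy 2
        simpa using this
      have k3 : x 3 + y 3 = 0 := by
        have := congrFun hxy 3
        simpa using this
      have e2 : x 2 = 0 := by linarith
      have e3 : x 3 = 0 := by linarith
      have e0 : x 0 = 0 := by
        rw [e2, mul_zero] at h4
        exact pow_eq_zero_iff (two_ne_zero) |>.1 (le_antisymm h4 (sq_nonneg _))
      have e4 : x 4 = 0 := by
        rw [e3, mul_zero] at h5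
        exact pow_eq_zero_iff (two_ne_zero) |>.1 (le_antisymm h5 (sq_nonneg _))
      refine ⟨x 1, h1, ?_⟩
      funext i
      fin_cases i
      · simpa using e0
      · simp
      · simpa using e2
      · simpa using e3
      · simpa using e4
    intro x hx y hy hxy
    exact ⟨key x hx y hy hxy, key y hy x hx (by rwa [add_comm])⟩
  · intro h
    have := congrFun h 1
    simp at this

/-! ### Divisibility -/

/-- `a b - x ^ 2`. -/
noncomputable def q₁ : MvPolynomial (Fin 5) ℝ := X 1 * X 2 - X 0 ^ 2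

/-- `a c - y ^ 2`. -/
noncomputable def q₂ : MvPolynomial (Fin 5) ℝ := X 1 * X 3 - X 4 ^ 2

lemma eval_q₁ (z : Fin 5 → ℝ) : eval z q₁ = z 1 * z 2 - z 0 ^ 2 := by simp [q₁]

lemma eval_q₂ (z : Fin 5 → ℝ) : eval z q₂ = z 1 * z 3 - z 4 ^ 2 := by simp [q₂]

/-- A polynomial which vanishes on an open piece of the surface `a b = x ^ 2` is divisible by
`a b - x ^ 2`. -/
lemma q₁_dvd {f : MvPolynomial (Fin 5) ℝ}
    (hf : ∀ z : Fin 5 → ℝ, 0 < z 1 → 0 < z 2 → 0 < z 3 → z 0 ^ 2 = z 1 * z 2 →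
      z 4 ^ 2 < z 1 * z 3 → eval z f = 0) : q₁ ∣ f := by
  let E := finSuccEquiv ℝ 4
  let c : MvPolynomial (Fin 4) ℝ := X 0 * X 1
  let D : Polynomial (MvPolynomial (Fin 4) ℝ) := Polynomial.X ^ 2 - Polynomial.C c
  have hD : D.Monic := Polynomial.monic_X_pow_sub_C c two_ne_zero
  have hdeg : D.degree = 2 := by
    have := Polynomial.degree_X_pow_sub_C (R := MvPolynomial (Fin 4) ℝ) (n := 2) (by norm_num) c
    exact_mod_cast this
  have hEq : E q₁ = -D := by
    have h0 : E (X 0) = Polynomial.X := finSuccEquiv_X_zero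
    have h1 : E (X 1) = Polynomial.C (X 0) := finSuccEquiv_X_succ (j := 0)
    have h2 : E (X 2) = Polynomial.C (X 1) := finSuccEquiv_X_succ (j := 1)
    show E (X 1 * X 2 - X 0 ^ 2) = _
    rw [map_sub, map_mul, map_pow, h0, h1, h2, ← Polynomial.C_mul]
    show Polynomial.C c - Polynomial.X ^ 2 = -(Polynomial.X ^ 2 - Polynomial.C c)
    ring
  -- the remainder
  set r := (E f) %ₘ D with hr
  have hr2 : r = Polynomial.C (r.coeff 1) * Polynomial.X + Polynomial.C (r.coeff 0) := by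
    apply Polynomial.eq_X_add_C_of_natDegree_le_one
    have h1 : D.natDegree = 2 := Polynomial.natDegree_eq_of_degree_eq_some (by exact_mod_cast hdeg)
    have h2 := Polynomial.natDegree_modByMonic_lt (E f) hD (by
      intro h
      rw [h] at h1
      simp at h1)
    rw [h1] at h2
    exact Nat.le_of_lt_succ h2
  have hdiv : E f = r + D * ((E f) /ₘ D) := (Polynomial.modByMonic_add_div _ D).symm
  -- evaluation
  have hval : ∀ (s : Fin 4 → ℝ) (t : ℝ), 0 < s 0 → 0 < s 1 → 0 < s 2 → t ^ 2 = s 0 * s 1 →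
      s 3 ^ 2 < s 0 * s 2 → eval s (r.coeff 1) * t + eval s (r.coeff 0) = 0 := by
    intro s t h0 h1 h2 ht h3
    have e1 : eval (Fin.cons t s : Fin 5 → ℝ) f = 0 := hf _ h0 h1 h2 ht h3
    rw [eval_eq_eval_mv_eval'] at e1
    change Polynomial.eval t (Polynomial.map (eval s) (E f)) = 0 at e1
    rw [hdiv, Polynomial.map_add, Polynomial.map_mul, Polynomial.eval_add,
      Polynomial.eval_mul] at e1
    have e2 : Polynomial.eval t (Polynomial.map (eval s) D) = 0 := by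
      show Polynomial.eval t (Polynomial.map (eval s) (Polynomial.X ^ 2 - Polynomial.C c)) = 0
      rw [Polynomial.map_sub, Polynomial.map_pow, Polynomial.map_X, Polynomial.map_C,
        Polynomial.eval_sub, Polynomial.eval_pow, Polynomial.eval_X, Polynomial.eval_C, ht]
      simp [c]
    rw [e2, zero_mul, add_zero, hr2, Polynomial.map_add, Polynomial.map_mul, Polynomial.map_C,
      Polynomial.map_X, Polynomial.map_C, Polynomial.eval_add, Polynomial.eval_mul,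
      Polynomial.eval_C, Polynomial.eval_X, Polynomial.eval_C] at e1
    exact e1
  have hbox : ∀ s : Fin 4 → ℝ, s ∈ Set.pi Set.univ (fun i : Fin 4 => if i = 3 then Set.Ioo (0 : ℝ) 1
      else Set.Ioo (1 : ℝ) 2) → eval s (r.coeff 1) = 0 ∧ eval s (r.coeff 0) = 0 := by
    intro s hs
    have s0 : s 0 ∈ Set.Ioo (1 : ℝ) 2 := by simpa using hs 0 (Set.mem_univ _)
    have s1 : s 1 ∈ Set.Ioo (1 : ℝ) 2 := by simpa using hs 1 (Set.mem_univ _)
    have s2 : s 2 ∈ Set.Ioo (1 : ℝ) 2 := by simpa using hs 2 (Set.mem_univ _)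
    have s3 : s 3 ∈ Set.Ioo (0 : ℝ) 1 := by simpa using hs 3 (Set.mem_univ _)
    have p0 : 0 < s 0 := by linarith [s0.1]
    have p1 : 0 < s 1 := by linarith [s1.1]
    have p2 : 0 < s 2 := by linarith [s2.1]
    have p3 : s 3 ^ 2 < s 0 * s 2 := by nlinarith [s0.1, s2.1, s3.1, s3.2]
    have hpos : 0 < s 0 * s 1 := mul_pos p0 p1
    have k1 := hval s (Real.sqrt (s 0 * s 1)) p0 p1 p2 (Real.sq_sqrt hpos.le) p3
    have k2 := hval s (-Real.sqrt (s 0 * s 1)) p0 p1 p2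
      (by rw [neg_sq]; exact Real.sq_sqrt hpos.le) p3
    have hne : Real.sqrt (s 0 * s 1) ≠ 0 := (Real.sqrt_pos.2 hpos).ne'
    have k3 : eval s (r.coeff 1) * Real.sqrt (s 0 * s 1) = 0 := by linarith
    have k4 : eval s (r.coeff 1) = 0 := by
      rcases mul_eq_zero.1 k3 with h | h
      · exact h
      · exact absurd h hne
    refine ⟨k4, ?_⟩
    rw [k4, zero_mul, zero_add] at k1
    exact k1
  have hinf : ∀ i : Fin 4, (if i = 3 then Set.Ioo (0 : ℝ) 1 else Set.Ioo (1 : ℝ) 2).Infinite := by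
    intro i
    split_ifs
    · exact Set.Ioo_infinite (by norm_num)
    · exact Set.Ioo_infinite (by norm_num)
  have z1 : r.coeff 1 = 0 := by
    apply MvPolynomial.funext_set _ hinf
    intro s hs
    rw [(hbox s hs).1, map_zero]
  have z0 : r.coeff 0 = 0 := by
    apply MvPolynomial.funext_set _ hinf
    intro s hs
    rw [(hbox s hs).2, map_zero]
  have hr0 : r = 0 := by
    rw [hr2, z1, z0]; simp
  rw [hr0, zero_add] at hdiv
  refine ⟨E.symm (-((E f) /ₘ D)), ?_⟩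
  apply E.injective
  rw [map_mul, hEq, AlgEquiv.apply_symm_apply]
  conv_lhs => rw [hdiv]
  ring

/-- The permutation of the coordinates which exchanges `(x, b)` and `(y, c)`. -/
def σ : Equiv.Perm (Fin 5) := Equiv.swap 0 4 * Equiv.swap 2 3

lemma q₂_dvd {f : MvPolynomial (Fin 5) ℝ}
    (hf : ∀ z : Fin 5 → ℝ, 0 < z 1 → 0 < z 2 → 0 < z 3 → z 4 ^ 2 = z 1 * z 3 →
      z 0 ^ 2 < z 1 * z 2 → eval z f = 0) : q₂ ∣ f := by
  have s0 : σ 0 = 4 := by decide
  have s1 : σ 1 = 1 := by decide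
  have s2 : σ 2 = 3 := by decide
  have s3 : σ 3 = 2 := by decide
  have s4 : σ 4 = 0 := by decide
  have hσ : ∀ i, σ (σ i) = i := by decide
  have h1 : q₁ ∣ rename σ f := by
    apply q₁_dvd
    intro z h1 h2 h3 h0 h4
    rw [eval_rename]
    apply hf
    · simpa [s1] using h1
    · simpa [s2] using h3
    · simpa [s3] using h2
    · simpa [s1, s3, s4] using h0
    · simpa [s0, s1, s2] using h4
  obtain ⟨g, hg⟩ := h1
  refine ⟨rename σ g, ?_⟩
  have h2 : rename σ (rename σ f) = f := by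
    rw [rename_rename]
    have : (σ ∘ σ : Fin 5 → Fin 5) = id := funext hσ
    rw [this, rename_id_apply]
  rw [← h2, hg, map_mul]
  congr 1
  show rename σ (X 1 * X 2 - X 0 ^ 2) = X 1 * X 3 - X 4 ^ 2
  rw [map_sub, map_mul, map_pow, rename_X, rename_X, rename_X, s0, s1, s2]

/-! ### The hyperbolic polynomial -/

section Main

variable {d : ℕ} {p : MvPolynomial (Fin 5) ℝ} {e : Fin 5 → ℝ}

lemma eval_smul (hp : p.IsHomogeneous d) (t : ℝ) (z : Fin 5 → ℝ) :
    eval (t • z) p = t ^ d * eval z p := by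
  rw [eval_eq, eval_eq, Finset.mul_sum]
  refine Finset.sum_congr rfl fun s hs => ?_
  have h1 := hp.degree_eq_sum_deg_support hs
  have h2 : ∏ i ∈ s.support, (t • z) i ^ s i = t ^ d * ∏ i ∈ s.support, z i ^ s i := by
    rw [h1, ← Finset.prod_pow_eq_pow_sum, ← Finset.prod_mul_distrib]
    refine Finset.prod_congr rfl fun i _ => ?_
    rw [Pi.smul_apply, smul_eq_mul, mul_pow]
  rw [h2]
  ring

lemma mem_hypCone {z : Fin 5 → ℝ} :
    z ∈ hypCone p e ↔ ∀ t : ℝ, eval (t • e - z) p = 0 → 0 ≤ t := by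
  unfold hypCone
  simp only [Set.mem_ofPred_eq, Polynomial.IsRoot, eval_charPoly]

lemma cont_eval {f : ℝ → Fin 5 → ℝ} (hf : Continuous f) : Continuous fun t => eval (f t) p :=
  (MvPolynomial.continuous_eval p).comp hf

/-- The direction of hyperbolicity is in the interior. -/
lemma e_mem_U (hp : p.IsHomogeneous d) (he : 0 < eval e p) (hV : V = hypCone p e) : e ∈ U := by
  by_contra hU
  have hcont : Continuous fun ε : ℝ => eval (e - ε • w) p := cont_eval (by fun_prop)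
  have h0 : 0 < eval (e - (0 : ℝ) • w) p := by simpa using he
  have h1 : ∀ᶠ ε in nhds (0 : ℝ), 0 < eval (e - ε • w) p :=
    hcont.continuousAt.eventually (lt_mem_nhds h0)
  obtain ⟨δ, hδ, hball⟩ := Metric.eventually_nhds_iff.1 h1
  have h2 : e - (δ / 2) • w ∉ V := by
    intro h
    apply hU
    have := add_mem_U h (smul_mem_U (half_pos hδ) w_mem_U)
    simpa using this
  rw [hV, mem_hypCone] at h2
  push Not at h2
  obtain ⟨t, ht, ht0⟩ := h2
  have h3 : t • e - (e - (δ / 2) • w) = (-(1 - t)) • (e - (δ / 2 / (1 - t)) • w) := by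
    have hne : 1 - t ≠ 0 := by linarith
    funext i
    simp only [Pi.sub_apply, Pi.smul_apply, smul_eq_mul]
    field_simp
    ring
  rw [h3, eval_smul hp] at ht
  have h4 : (-(1 - t)) ^ d ≠ 0 := pow_ne_zero _ (by linarith)
  rcases mul_eq_zero.1 ht with h5 | h5
  · exact h4 h5
  · have h6 := hball (y := δ / 2 / (1 - t)) (by
      rw [Real.dist_eq, sub_zero, abs_of_pos (by apply div_pos <;> linarith)]
      rw [div_lt_iff₀ (by linarith)]
      nlinarith)
    linarith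

/-- `p` vanishes on the boundary. -/
lemma boundary (hp : p.IsHomogeneous d) (he : 0 < eval e p) (hV : V = hypCone p e)
    {z : Fin 5 → ℝ} (hz : z ∈ V) (hz' : z ∉ U) : eval z p = 0 := by
  have hU := e_mem_U hp he hV
  have key : eval (-z) p = 0 := by
    by_contra hne
    have hcont : Continuous fun τ : ℝ => eval (τ • e - z) p := cont_eval (by fun_prop)
    have h0 : eval ((0 : ℝ) • e - z) p ≠ 0 := by simpa using hne
    have h1 : ∀ᶠ τ in nhds (0 : ℝ), eval (τ • e - z) p ≠ 0 :=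
      hcont.continuousAt.eventually_ne h0
    obtain ⟨δ, hδ, hball⟩ := Metric.eventually_nhds_iff.1 h1
    have h2 : z - δ • e ∉ V := by
      intro h
      apply hz'
      have := add_mem_U h (smul_mem_U hδ hU)
      simpa using this
    rw [hV, mem_hypCone] at h2
    push Not at h2
    obtain ⟨t, ht, ht0⟩ := h2
    have h3 : t • e - (z - δ • e) = (t + δ) • e - z := by
      rw [add_smul]; abel
    rw [h3] at ht
    rw [hV, mem_hypCone] at hz
    have h4 := hz _ ht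
    refine hball (y := t + δ) ?_ ht
    rw [Real.dist_eq, sub_zero, abs_of_nonneg h4]
    linarith
  have h5 : z = (-1 : ℝ) • (-z) := by simp
  rw [h5, eval_smul hp, key, mul_zero]

/-- Both quadratic forms divide `p`. -/
lemma factor (hp : p.IsHomogeneous d) (he : 0 < eval e p) (hV : V = hypCone p e) :
    ∃ r : MvPolynomial (Fin 5) ℝ, p = q₁ * (q₂ * r) := by
  obtain ⟨p₁, hp₁⟩ := q₁_dvd (f := p) (by
    intro z h1 h2 h3 h0 h4
    exact boundary hp he hV ⟨h1.le, h2.le, h3.le, h0.le, h4.le⟩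
      (fun h => absurd h.2.2.2.1 (by rw [h0]; exact lt_irrefl _)))
  obtain ⟨r, hr⟩ := q₂_dvd (f := p₁) (by
    intro z h1 h2 h3 h4 h0
    have h5 := boundary hp he hV ⟨h1.le, h2.le, h3.le, h0.le, h4.le⟩
      (fun h => absurd h.2.2.2.2 (by rw [h4]; exact lt_irrefl _))
    rw [hp₁, map_mul, eval_q₁] at h5
    rcases mul_eq_zero.1 h5 with h6 | h6
    · exact absurd h6 (by
        have : 0 < z 1 * z 2 - z 0 ^ 2 := by linarith
        exact this.ne')
    · exact h6)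
  exact ⟨r, by rw [← hr, ← hp₁]⟩

lemma charPoly_q₁ (e : Fin 5 → ℝ) (s : ℝ) (h : e 1 * e 2 - e 0 ^ 2 ≠ 0) :
    charPoly q₁ e (s • ![0, 1, 0, 0, 0]) = (Polynomial.X - Polynomial.C
      (s * e 2 / (e 1 * e 2 - e 0 ^ 2))) * (Polynomial.C (e 1 * e 2 - e 0 ^ 2) *
        Polynomial.X) := by
  have h1 : charPoly q₁ e (s • ![0, 1, 0, 0, 0]) =
      (Polynomial.X * Polynomial.C (e 1) - Polynomial.C s) *
        (Polynomial.X * Polynomial.C (e 2)) - (Polynomial.X * Polynomial.C (e 0)) ^ 2 := by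
    unfold charPoly q₁
    simp
  have h2 : Polynomial.C (s * e 2 / (e 1 * e 2 - e 0 ^ 2)) *
      Polynomial.C (e 1 * e 2 - e 0 ^ 2) = Polynomial.C s * Polynomial.C (e 2) := by
    rw [← Polynomial.C_mul, ← Polynomial.C_mul, div_mul_cancel₀ _ h]
  have h3 : Polynomial.C (e 1 * e 2 - e 0 ^ 2) =
      Polynomial.C (e 1) * Polynomial.C (e 2) - Polynomial.C (e 0) ^ 2 := by simp
  rw [h1]
  linear_combination Polynomial.X * h2 - Polynomial.X ^ 2 * h3

lemma charPoly_q₂ (e : Fin 5 → ℝ) (s : ℝ) (h : e 1 * e 3 - e 4 ^ 2 ≠ 0) :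
    charPoly q₂ e (s • ![0, 1, 0, 0, 0]) = (Polynomial.X - Polynomial.C
      (s * e 3 / (e 1 * e 3 - e 4 ^ 2))) * (Polynomial.C (e 1 * e 3 - e 4 ^ 2) *
        Polynomial.X) := by
  have h1 : charPoly q₂ e (s • ![0, 1, 0, 0, 0]) =
      (Polynomial.X * Polynomial.C (e 1) - Polynomial.C s) *
        (Polynomial.X * Polynomial.C (e 3)) - (Polynomial.X * Polynomial.C (e 4)) ^ 2 := by
    unfold charPoly q₂
    simp
  have h2 : Polynomial.C (s * e 3 / (e 1 * e 3 - e 4 ^ 2)) *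
      Polynomial.C (e 1 * e 3 - e 4 ^ 2) = Polynomial.C s * Polynomial.C (e 3) := by
    rw [← Polynomial.C_mul, ← Polynomial.C_mul, div_mul_cancel₀ _ h]
  have h3 : Polynomial.C (e 1 * e 3 - e 4 ^ 2) =
      Polynomial.C (e 1) * Polynomial.C (e 3) - Polynomial.C (e 4) ^ 2 := by simp
  rw [h1]
  linear_combination Polynomial.X * h2 - Polynomial.X ^ 2 * h3

/-- Every nonzero element of the extreme ray has rank at least `2`. -/
lemma two_le_rank (hp : p.IsHomogeneous d) (he : 0 < eval e p) (hV : V = hypCone p e)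
    {x : Fin 5 → ℝ} (hx : x ∈ ray) (hx0 : x ≠ 0) : 2 ≤ rank p e x := by
  have hxV : x ∈ V := extreme_ray.1.1 hx
  obtain ⟨s, hs, rfl⟩ := hx
  have hs0 : 0 < s := by
    rcases hs.lt_or_eq with h | h
    · exact h
    · exact absurd (by rw [← h]; simp) hx0
  obtain ⟨g1, g2, g3, g4, g5⟩ := e_mem_U hp he hV
  obtain ⟨r, hr⟩ := factor hp he hV
  have n1 : 0 < e 1 * e 2 - e 0 ^ 2 := by linarith
  have n2 : 0 < e 1 * e 3 - e 4 ^ 2 := by linarith
  have hne : charPoly p e (s • ![0, 1, 0, 0, 0]) ≠ 0 := by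
    intro h
    rw [hV] at hxV
    have := hxV (-1) (by rw [h]; simp)
    linarith
  set a₁ := s * e 2 / (e 1 * e 2 - e 0 ^ 2) with ha₁
  set a₂ := s * e 3 / (e 1 * e 3 - e 4 ^ 2) with ha₂
  have p1 : a₁ ≠ 0 := by
    have : 0 < a₁ := by rw [ha₁]; positivity
    exact this.ne'
  have p2 : a₂ ≠ 0 := by
    have : 0 < a₂ := by rw [ha₂]; positivity
    exact this.ne'
  obtain ⟨g, hg⟩ : ∃ g : Polynomial ℝ, charPoly p e (s • ![0, 1, 0, 0, 0]) =
      (Polynomial.X - Polynomial.C a₁) * ((Polynomial.X - Polynomial.C a₂) * g) := by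
    rw [hr, charPoly_mul, charPoly_mul, charPoly_q₁ e s n1.ne', charPoly_q₂ e s n2.ne']
    exact ⟨(Polynomial.C (e 1 * e 2 - e 0 ^ 2) * Polynomial.X) *
      ((Polynomial.C (e 1 * e 3 - e 4 ^ 2) * Polynomial.X) *
        charPoly r e (s • ![0, 1, 0, 0, 0])), by ring⟩
  unfold rank
  classical
  rw [hg] at hne ⊢
  rw [Polynomial.roots_mul hne, Polynomial.roots_mul (right_ne_zero_of_mul hne),
    Polynomial.roots_X_sub_C, Polynomial.roots_X_sub_C, Multiset.filter_add, Multiset.filter_add,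
    Multiset.card_add, Multiset.card_add]
  have c1 : Multiset.card (Multiset.filter (fun t => t ≠ 0) ({a₁} : Multiset ℝ)) = 1 := by
    rw [Multiset.filter_singleton, if_pos p1]; rfl
  have c2 : Multiset.card (Multiset.filter (fun t => t ≠ 0) ({a₂} : Multiset ℝ)) = 1 := by
    rw [Multiset.filter_singleton, if_pos p2]; rfl
  omega

end Main

/-- There is a homogeneous cone `K ⊆ ℝ ^ 5` (pointed, full-dimensional, closed) with an extreme ray
`R` such that for every homogeneous polynomial `p` which is hyperbolic along some `e` and has `K` as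
its hyperbolicity cone all generators of `R` have rank at least `2` with respect to `p`, `e`. So not
every homogeneous cone is a rank-one generated hyperbolicity cone. -/
theorem result : ∃ K : Set (Fin 5 → ℝ), IsHomogeneousCone K ∧ ∃ R : Set (Fin 5 → ℝ),
    IsExtremeRay K R ∧ ∀ (d : ℕ) (p : MvPolynomial (Fin 5) ℝ) (e : Fin 5 → ℝ),
      p.IsHomogeneous d → Hyperbolic p e → K = hypCone p e → ∀ x ∈ R, x ≠ 0 → 2 ≤ rank p e x :=
  ⟨V, homogeneous_V, ray, extreme_ray, fun _ _ _ hp hh hV _ hx hx0 =>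
    two_le_rank hp hh.1 hV hx hx0⟩

end Pool.Agent.Results.MP_3ab8ef_ag.NotROG
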